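import Pool.Agent.Helper50_DP.StmtsC

/-!
# Squad DP: module NDC, the conditions at a node
-/

open MvPolynomial PGH PGL

namespace Pool.Agent.DP.H86

section span

variable (K : Type) [Field K]

/-- the multiples of the `n`-th power of the variable `u` -/
noncomputable def UI (n : ℕ) : Submodule K (Vr K) :=
  (Ideal.span {(X 1 : Vr K) ^ n}).restrictScalars K

theorem mem_UI {n : ℕ} {v : Vr K} : v ∈ UI K n ↔ (X 1 : Vr K) ^ n ∣ v := by
  rw [UI, Submodule.restrictScalars_mem, Ideal.mem_span_singleton]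

/-- the indices of the conditions -/
def ix : Finset (Σ _ : ℕ, Σ _ : ℕ, Σ _ : ℕ, ℕ) :=
  (Finset.range 21).sigma fun J => (Finset.range (61 - 3 * J)).sigma fun b =>
    (Finset.range (b + J)).sigma fun t => Finset.range (t + 1)

theorem card_ix : ix.card = cnd := by
  rw [ix, cnd, Finset.card_sigma]
  refine Finset.sum_congr rfl fun J _ => ?_
  rw [Finset.card_sigma]
  refine Finset.sum_congr rfl fun b _ => ?_
  rw [Finset.card_sigma]
  simp only [Finset.card_range]
  have h := Finset.sum_range_id (b + J + 1)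
  rw [Finset.sum_range_succ' (fun t => t) (b + J), add_zero] at h
  rw [h, Nat.add_sub_cancel, mul_comm]

/-- the elements which span the space modulo the `120`-th power of `u` -/
noncomputable def vec (N : ℕ) (x : Σ _ : ℕ, Σ _ : ℕ, Σ _ : ℕ, ℕ) : Vr K :=
  nel K x.1 (60 - 3 * x.1 - x.2.1) x.2.1 x.2.2.2 (x.2.2.1 - x.2.2.2) (E₀ N - x.2.2.1)

theorem NM_le (N : ℕ) :
    NM K N ≤ Submodule.span K ((vec K N '' (ix : Set _)) : Set (Vr K)) ⊔ UI K 120 := by
  rw [NM, Submodule.span_le]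
  rintro e ⟨J, a, b, r, s, w, h1, h2, rfl⟩
  by_cases h : r + s < b + J
  · refine Submodule.mem_sup_left (Submodule.subset_span ⟨⟨J, b, r + s, r⟩, ?_, ?_⟩)
    · rw [Finset.mem_coe, ix]
      simp only [Finset.mem_sigma, Finset.mem_range]
      refine ⟨by omega, by omega, h, by omega⟩
    · have ha : 60 - 3 * J - b = a := by omega
      have hs : r + s - r = s := by omega
      have hw : E₀ N - (r + s) = w := by omega
      simp only [vec]
      rw [ha, hs, hw]
  · refine Submodule.mem_sup_right ((mem_UI K).2 ?_)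
    rw [nel]
    obtain ⟨q, hq⟩ : ∃ q, 60 + 2 * J + a + (r + s) = 120 + q := ⟨60 + 2 * J + a + (r + s) - 120,
      by omega⟩
    refine ⟨X 1 ^ q * (X 4 ^ (2 * J + b) * wr K ^ J * X 5 ^ a *
      X 2 ^ b * (X 4 ^ s * X 0 ^ w)), ?_⟩
    have h3 : (X 1 : Vr K) ^ (60 + 2 * J + a) * (X 1 ^ r * X 1 ^ s) = X 1 ^ 120 * X 1 ^ q := by
      rw [← pow_add, ← pow_add, ← pow_add, hq]
    calc _ = ((X 1 : Vr K) ^ (60 + 2 * J + a) * (X 1 ^ r * X 1 ^ s)) * (X 4 ^ (2 * J + b) *
          wr K ^ J * X 5 ^ a * X 2 ^ b * (X 4 ^ s * X 0 ^ w)) := by rw [mul_pow]; ring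
      _ = _ := by rw [h3]; ring

end span

section linear

variable {K : Type} [Field K] {V W : Type} [AddCommGroup V] [Module K V] [AddCommGroup W]
  [Module K W]

/-- a finite set of generators gives coordinates -/
theorem exists_coord (s : Finset W) (n : ℕ) (hs : s.card ≤ n) :
    ∃ φ : W →ₗ[K] (Fin n → K), ∀ x ∈ Submodule.span K (s : Set W), φ x = 0 → x = 0 := by
  classical
  have hfin : FiniteDimensional K (Submodule.span K (s : Set W)) :=
    FiniteDimensional.span_finset K s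
  have hd : Module.finrank K (Submodule.span K (s : Set W)) ≤ n :=
    (finrank_span_finset_le_card s).trans hs
  obtain ⟨b⟩ : Nonempty (Module.Basis (Fin (Module.finrank K (Submodule.span K (s : Set W)))) K
      (Submodule.span K (s : Set W))) := ⟨Module.finBasis K _⟩
  let φ₀ : Submodule.span K (s : Set W) →ₗ[K] (Fin n → K) := LinearMap.pi fun t =>
    if h : (t : ℕ) < Module.finrank K (Submodule.span K (s : Set W)) then b.coord ⟨t, h⟩ else 0
  obtain ⟨φ, hφ⟩ := LinearMap.exists_extend φ₀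
  refine ⟨φ, fun x hx h0 => ?_⟩
  have h1 : φ₀ ⟨x, hx⟩ = 0 := by rw [← hφ]; exact h0
  have h2 : (⟨x, hx⟩ : Submodule.span K (s : Set W)) = 0 := by
    refine b.ext_elem fun t => ?_
    have h3 := congrFun h1 ⟨t, t.2.trans_le hd⟩
    simp only [φ₀, LinearMap.pi_apply, t.2, dif_pos, Pi.zero_apply, Fin.eta] at h3
    rw [map_zero, Finsupp.zero_apply]
    exact h3
  exact congrArg Subtype.val h2

/-- conditions for the values of a linear map to lie in a submodule -/
theorem exists_cond (Θ : V →ₗ[K] W) (P : Submodule K V) (U M : Submodule K W) (s : Finset W)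
    (n : ℕ) (hs : s.card ≤ n) (hM : M ≤ Submodule.span K (s : Set W) ⊔ U)
    (hΘ : ∀ v ∈ P, Θ v ∈ M) :
    ∃ Λ : V →ₗ[K] (Fin n → K), ∀ v ∈ P, Λ v = 0 → Θ v ∈ U := by
  classical
  obtain ⟨φ, hφ⟩ := exists_coord (K := K) (s.image (U.mkQ)) n (Finset.card_image_le.trans hs)
  refine ⟨φ ∘ₗ U.mkQ ∘ₗ Θ, fun v hv h0 => ?_⟩
  have h1 : U.mkQ (Θ v) ∈ Submodule.span K ((s.image U.mkQ : Finset _) : Set (W ⧸ U)) := by
    obtain ⟨a, ha, c, hc, hac⟩ := Submodule.mem_sup.1 (hM (hΘ v hv))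
    rw [← hac, map_add, (Submodule.Quotient.mk_eq_zero U).2 hc |> fun h => (by
      simpa using h : U.mkQ c = 0), add_zero, Finset.coe_image, ← Submodule.map_span]
    exact Submodule.mem_map_of_mem ha
  have h2 := hφ _ h1 h0
  rwa [Submodule.mkQ_apply, Submodule.Quotient.mk_eq_zero] at h2

end linear

section jets

variable {K : Type} [Field K] {R : Type} [CommRing R] [Algebra K R]

/-- the jets with coordinates `u`, `η u`, `z` -/
noncomputable def gj (α β γ : Fin 3 → K) (u z η : Fin 3 → R) : Fin 3 → Fin 3 → R :=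
  ![fun c => algebraMap K R (α c) * u 0 + algebraMap K R (β c) * (η 0 * u 0) +
      algebraMap K R (γ c) * z 0,
    fun c => algebraMap K R (α c) * u 1 + algebraMap K R (β c) * (η 1 * u 0 + η 0 * u 1) +
      algebraMap K R (γ c) * z 1,
    fun c => algebraMap K R (α c) * u 2 +
      algebraMap K R (β c) * (η 2 * u 0 + 2 * η 1 * u 1 + η 0 * u 2) +
      algebraMap K R (γ c) * z 2]

/-- the coordinates of the image of `vjet` -/
noncomputable def sg (u z η : Fin 3 → R) : Fin 7 → R :=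
  ![z 0, u 0, z 0 * u 1 - z 1 * u 0,
    z 0 ^ 2 * u 2 - 2 * z 0 * z 1 * u 1 + (2 * z 1 ^ 2 - z 0 * z 2) * u 0,
    η 0, z 0 * η 1, z 0 ^ 2 * η 2]

theorem aeval_vjet (α β γ : Fin 3 → K) (u z η : Fin 3 → R) (r c : Fin 3) :
    aeval (sg u z η) (vjet α β γ r c) =
      chg 1 (z 0) (-z 1) (-2 * z 0 * z 1) (2 * z 1 ^ 2 - z 0 * z 2) (gj α β γ u z η) r c := by
  fin_cases r
  · simp [vjet, chg, gj, sg]
  · simp [vjet, chg, gj, sg]
    ring
  · simp [vjet, chg, gj, sg]
    ring

theorem map_gj {R' : Type} [CommRing R'] [Algebra K R'] (f : R →ₐ[K] R') (α β γ : Fin 3 → K)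
    (u z η : Fin 3 → R) (r c : Fin 3) :
    f (gj α β γ u z η r c) =
      gj α β γ (fun t => f (u t)) (fun t => f (z t)) (fun t => f (η t)) r c := by
  have h2 : f 2 = 2 := map_ofNat f 2
  fin_cases r <;> simp [gj, h2]

/-- every vector is the combination of the dual basis -/
theorem eq_comb {a b c α β γ : Fin 3 → K}
    (h : ∀ s s' : Fin 3, α s * a s' + β s * b s' + γ s * c s' = if s = s' then 1 else 0)
    (x : Fin 3 → R) (s : Fin 3) :
    algebraMap K R (α s) * lin a x + algebraMap K R (β s) * lin b x +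
      algebraMap K R (γ s) * lin c x = x s := by
  have h1 : algebraMap K R (α s) * lin a x + algebraMap K R (β s) * lin b x +
      algebraMap K R (γ s) * lin c x =
      ∑ s', algebraMap K R (α s * a s' + β s * b s' + γ s * c s') * x s' := by
    simp only [lin, Finset.mul_sum, ← Finset.sum_add_distrib]
    refine Finset.sum_congr rfl fun s' _ => ?_
    rw [map_add, map_add, map_mul, map_mul, map_mul]
    ring
  rw [h1, Finset.sum_eq_single s]
  · rw [h, if_pos rfl, map_one, one_mul]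
  · intro s' _ hs
    rw [h, if_neg (Ne.symm hs), map_zero, zero_mul]
  · intro hs
    exact absurd (Finset.mem_univ s) hs

end jets

section dual

variable {K : Type} [Field K]

/-- the dual basis -/
theorem exists_dual (a b c : Fin 3 → K) (h : det3 a b c ≠ 0) :
    ∃ α β γ : Fin 3 → K, (lin a α = (1 : K) ∧ lin a β = (0 : K) ∧ lin a γ = (0 : K)) ∧
      (lin b α = (0 : K) ∧ lin b β = (1 : K) ∧ lin b γ = (0 : K)) ∧
      (lin c α = (0 : K) ∧ lin c β = (0 : K) ∧ lin c γ = (1 : K)) ∧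
      ∀ s s' : Fin 3, α s * a s' + β s * b s' + γ s * c s' = if s = s' then 1 else 0 := by
  have hdet : IsUnit (Matrix.of ![a, b, c]).det := isUnit_iff_ne_zero.2 h
  have h1 := Matrix.mul_nonsing_inv _ hdet
  have h2 := Matrix.nonsing_inv_mul _ hdet
  set B := (Matrix.of ![a, b, c])⁻¹ with hB
  have e1 : ∀ r s : Fin 3, ∑ t, (Matrix.of ![a, b, c]) r t * B t s = if r = s then 1 else 0 := by
    intro r s
    rw [← Matrix.mul_apply, h1, Matrix.one_apply]
  have e2 : ∀ r s : Fin 3, ∑ t, B r t * (Matrix.of ![a, b, c]) t s = if r = s then 1 else 0 := by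
    intro r s
    rw [← Matrix.mul_apply, h2, Matrix.one_apply]
  refine ⟨fun t => B t 0, fun t => B t 1, fun t => B t 2, ⟨?_, ?_, ?_⟩, ⟨?_, ?_, ?_⟩,
    ⟨?_, ?_, ?_⟩, fun s s' => ?_⟩
  · simpa [lin] using e1 0 0
  · simpa [lin] using e1 0 1
  · simpa [lin] using e1 0 2
  · simpa [lin] using e1 1 0
  · simpa [lin] using e1 1 1
  · simpa [lin] using e1 1 2
  · simpa [lin] using e1 2 0
  · simpa [lin] using e1 2 1
  · simpa [lin] using e1 2 2
  · have := e2 s s'
    rw [Fin.sum_univ_three] at this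
    simpa using this

end dual

section main

variable {K : Type} [Field K] {N : ℕ}

/-- the polynomial at the jets of a node -/
noncomputable def Th (L : Fin N → Fin 3 → K) (α β γ : Fin 3 → K) :
    (Fin 20 → MvPolynomial (Fin 2 × Fin 3) K) →ₗ[K] Vr K :=
  ∑ t : Fin 20, (LinearMap.mulLeft K ((Matrix.of (vjet α β γ)).det ^ ((t : ℕ) + 1) *
    (∏ a, lin (L a) (vjet α β γ 0)) ^ (2 * ((t : ℕ) + 1)))) ∘ₗ
      (ev1 (vjet α β γ 0) (vjet α β γ 1)).toLinearMap ∘ₗ LinearMap.proj t

theorem aeval_lin {σ R : Type} [CommRing R] [Algebra K R] (M : Fin 3 → K)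
    (f : MvPolynomial σ K →ₐ[K] R) (x : Fin 3 → MvPolynomial σ K) :
    f (lin M x) = lin M (fun c => f (x c)) := by
  simp only [lin, map_sum, map_mul, AlgHom.commutes]

theorem aeval_ev1 {R : Type} [CommRing R] [Algebra K R] (X' : Fin 3 → Fin 3 → R)
    (B : MvPolynomial (Fin 2 × Fin 3) K) :
    aeval (fun p : Fin 3 × Fin 3 => X' p.1 p.2)
      (ev1 (fun c => (X (0, c) : MvPolynomial (Fin 3 × Fin 3) K)) (fun c => X (1, c)) B) =
      ev1 (X' 0) (X' 1) B := by
  rw [ev1, ev1, ← AlgHom.comp_apply]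
  congr 1
  refine MvPolynomial.algHom_ext fun p => ?_
  obtain ⟨r, c⟩ := p
  rw [AlgHom.comp_apply, aeval_X, aeval_X]
  fin_cases r <;> simp

theorem aeval_Pof {R : Type} [CommRing R] [Algebra K R] (X' : Fin 3 → Fin 3 → R)
    (L : Fin N → Fin 3 → K) (B : Fin 20 → MvPolynomial (Fin 2 × Fin 3) K) :
    aeval (fun p : Fin 3 × Fin 3 => X' p.1 p.2) (Pof L B) =
      ∑ t : Fin 20, (Matrix.of X').det ^ ((t : ℕ) + 1) *
        (∏ a, lin (L a) (X' 0)) ^ (2 * ((t : ℕ) + 1)) * ev1 (X' 0) (X' 1) (B t) := by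
  rw [Pof, map_sum]
  refine Finset.sum_congr rfl fun t _ => ?_
  rw [map_mul, map_mul, map_pow, map_pow, aeval_ev1, AlgHom.map_det, map_prod]
  congr 3
  · congr 1
    ext r c
    simp
  · refine Finset.prod_congr rfl fun a _ => ?_
    rw [aeval_lin]
    simp only [aeval_X]

theorem Th_apply (L : Fin N → Fin 3 → K) (α β γ : Fin 3 → K)
    (B : Fin 20 → MvPolynomial (Fin 2 × Fin 3) K) :
    Th L α β γ B = aeval (fun p : Fin 3 × Fin 3 => vjet α β γ p.1 p.2) (Pof L B) := by
  rw [aeval_Pof, Th, LinearMap.sum_apply]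
  refine Finset.sum_congr rfl fun t _ => ?_
  simp only [LinearMap.comp_apply, LinearMap.mulLeft_apply, AlgHom.toLinearMap_apply,
    LinearMap.proj_apply]

/-- from the jets at the node to all rings -/
theorem nod_of_dvd {e : ℕ} (L : Fin N → Fin 3 → K) (i j l : Fin N) (α β γ : Fin 3 → K)
    (Q : MvPolynomial (Fin 3 × Fin 3) K) (hQ : InvK e 60 Q)
    (hd : ∀ s s' : Fin 3, α s * L i s' + β s * L j s' + γ s * L l s' = if s = s' then 1 else 0)
    (h : (X 1 : Vr K) ^ 120 ∣ aeval (fun p : Fin 3 × Fin 3 => vjet α β γ p.1 p.2) Q) :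
    NodK L i j 120 Q := by
  -- the generic ring
  let u : Fin 3 → MvPolynomial (Fin 3 × Fin 3) K := fun t => X (0, t)
  let z : Fin 3 → MvPolynomial (Fin 3 × Fin 3) K := fun t => X (1, t)
  let η : Fin 3 → MvPolynomial (Fin 3 × Fin 3) K := fun t => X (2, t)
  have h1 : u 0 ^ 120 ∣ z 0 ^ 60 *
      aeval (fun p : Fin 3 × Fin 3 => gj α β γ u z η p.1 p.2) Q := by
    have h2 := map_dvd (aeval (sg u z η) : Vr K →ₐ[K] MvPolynomial (Fin 3 × Fin 3) K) h
    rw [map_pow, aeval_X] at h2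
    have h3 : aeval (sg u z η) (aeval (fun p : Fin 3 × Fin 3 => vjet α β γ p.1 p.2) Q) =
        aeval (fun p : Fin 3 × Fin 3 => chg 1 (z 0) (-z 1) (-2 * z 0 * z 1)
          (2 * z 1 ^ 2 - z 0 * z 2) (gj α β γ u z η) p.1 p.2) Q := by
      rw [← AlgHom.comp_apply]
      congr 1
      refine MvPolynomial.algHom_ext fun p => ?_
      rw [AlgHom.comp_apply, aeval_X, aeval_X, aeval_vjet]
    rw [h3, hQ, one_pow, one_mul] at h2
    exact h2
  have hp : Prime (u 0) := MvPolynomial.X_prime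
  have hz : ¬ u 0 ∣ z 0 ^ 60 := by
    intro hc
    have h4 := hp.dvd_of_dvd_pow hc
    rw [MvPolynomial.X_dvd_X] at h4
    simp at h4
  have h5 := hp.pow_dvd_of_dvd_mul_left 120 hz h1
  intro R _ _ X' η₀ η₁ η₂ r0 r1 r2
  let f : MvPolynomial (Fin 3 × Fin 3) K →ₐ[K] R := aeval fun p =>
    (![fun t => lin (L i) (X' t), fun t => lin (L l) (X' t), ![η₀, η₁, η₂]] :
      Fin 3 → Fin 3 → R) p.1 p.2
  have h6 := map_dvd f h5
  have h7 : f (u 0) = lin (L i) (X' 0) := by simp [f, u]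
  have h8 : f (aeval (fun p : Fin 3 × Fin 3 => gj α β γ u z η p.1 p.2) Q) =
      aeval (fun p : Fin 3 × Fin 3 => X' p.1 p.2) Q := by
    rw [← AlgHom.comp_apply]
    congr 1
    refine MvPolynomial.algHom_ext fun p => ?_
    obtain ⟨r, c⟩ := p
    rw [AlgHom.comp_apply, aeval_X, aeval_X, map_gj]
    fin_cases r
    · have := eq_comb (R := R) hd (X' 0) c
      rw [r0] at this
      simpa [gj, f, u, z, η] using this
    · have := eq_comb (R := R) hd (X' 1) c
      rw [r1] at this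
      simpa [gj, f, u, z, η] using this
    · have := eq_comb (R := R) hd (X' 2) c
      rw [r2] at this
      simpa [gj, f, u, z, η] using this
  rw [map_pow, h7, h8] at h6
  exact h6

theorem ndc (hNda : NdaStmt) (hPdg : PdgStmt) : NdcStmt := by
  classical
  intro K _ N L i j hL hN hij
  obtain ⟨l, hl⟩ : ∃ l : Fin N, l ≠ i ∧ l ≠ j := by
    by_contra hc
    have hc : ∀ l : Fin N, l ≠ i → l = j := fun l h1 => by
      by_contra h2
      exact hc ⟨l, h1, h2⟩
    have : (Finset.univ : Finset (Fin N)) ⊆ {i, j} := by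
      intro l _
      rw [Finset.mem_insert, Finset.mem_singleton]
      by_cases h : l = i
      · exact Or.inl h
      · exact Or.inr (hc l h)
    have h2 := Finset.card_le_card this
    rw [Finset.card_univ, Fintype.card_fin] at h2
    have h3 : ({i, j} : Finset (Fin N)).card ≤ 2 := Finset.card_le_two
    omega
  obtain ⟨α, β, γ, ⟨a1, a2, a3⟩, ⟨b1, b2, b3⟩, ⟨c1, c2, c3⟩, hd⟩ :=
    exists_dual (L i) (L j) (L l) (hL i j l hij.ne hl.1 hl.2)
  let P : Submodule K (Fin 20 → MvPolynomial (Fin 2 × Fin 3) K) :=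
    Submodule.pi Set.univ fun t => LogP L Finset.univ (57 - 3 * (t : ℕ)) (tw N t)
  obtain ⟨Λ, hΛ⟩ := exists_cond (Th L α β γ) P (UI K 120) (NM K N) (ix.image (vec K N)) cnd
    (Finset.card_image_le.trans card_ix.le)
    (by rw [Finset.coe_image]; exact NM_le K N)
    (by
      intro B hB
      rw [Th, LinearMap.sum_apply]
      refine Submodule.sum_mem _ fun t _ => ?_
      exact hNda K N L i j l α β γ t (B t) hL hN hij hl.1 hl.2 a1 a2 a3 b1 b2 b3 c1 c2 c3
        (hB t (Set.mem_univ t)))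
  refine ⟨Λ, fun B hB h0 => ?_⟩
  have h1 := hΛ B (fun t _ => hB t) h0
  rw [mem_UI, Th_apply] at h1
  exact nod_of_dvd L i j l α β γ (Pof L B) (hPdg K N L B hN hB).1 hd h1

end main

end Pool.Agent.DP.H86
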